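import Pool.Agent.U36.TS.Stm

set_option autoImplicit false

/-!
Package K3 of project TSH (helper689): the exponent of `(th m ^ a - 1) * y / (1 - y)`.
-/

namespace Pool.Agent.U36.TS

theorem K3_fix {M : Type} [Field M] (T : M ≃+* M) {c : M} (hc : T c = c) (n : ℕ) :
    (T ^ n) c = c := by
  induction n with
  | zero => rw [pow_zero]; rfl
  | succ n ih =>
    rw [pow_succ]
    show (T ^ n) (T c) = c
    rw [hc, ih]

theorem K3_pow {M : Type} [Field M] (T : M ≃+* M) {c w : M} (hc : T c = c) (hw : T w = c * w)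
    (n : ℕ) : (T ^ n) w = c ^ n * w := by
  induction n with
  | zero => rw [pow_zero, pow_zero, one_mul]; rfl
  | succ n ih =>
    rw [pow_succ]
    show (T ^ n) (T w) = c ^ (n + 1) * w
    rw [hw, map_mul, K3_fix T hc, ih]
    ring

theorem K3_comp {M : Type} [Field M] {l : ℕ} {th : ℕ → M} (h : ∀ m, th (m + 1) ^ l = th m)
    (m K : ℕ) : th (m + K) ^ l ^ m = th K := by
  induction m with
  | zero => simp
  | succ m ih =>
    rw [show m + 1 + K = m + K + 1 by ring, pow_succ', pow_mul, h, ih]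

theorem t_K3 (hE : S_EX) : S_K3 := by
  intro M _ l q th T Ph U h r m K α j z y hr hα hz hz1 hTz hy hexz hex1
  have hSth : ∀ k, (T ^ l ^ (m - r)) (th k) = th k := fun k => K3_fix T (h.T_fix k) _
  obtain ⟨-, -, -, hmul, hinv, -⟩ := hE M l q th T Ph U h (T ^ l ^ (m - r)) hSth
  have hyU : y ∈ U := h.of_pow y m (by rw [hy]; exact hz)
  have h1yU : 1 - y ∈ U := by
    have := h.one_sub y hyU m (by rw [hy]; exact hz1) 0
    rwa [zpow_zero, one_mul] at this
  have hne : th m ^ ((l : ℤ) ^ r * α) ≠ 1 := by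
    intro h1
    rw [(h.prim m).zpow_eq_one_iff_dvd] at h1
    push_cast at h1
    have h2 : (l : ℤ) ^ m = (l : ℤ) ^ r * (l : ℤ) ^ (m - r) := by
      rw [← pow_add]; congr 1; omega
    rw [h2] at h1
    have h3 : (l : ℤ) ^ r ≠ 0 := pow_ne_zero _ (by exact_mod_cast h.prime.ne_zero)
    have h4 : (l : ℤ) ^ (m - r) ∣ α := (mul_dvd_mul_iff_left h3).1 h1
    exact hα ((dvd_pow_self _ (by omega)).trans h4)
  obtain ⟨hcU, hcfix⟩ := h.const m _ hne
  -- the constant
  have e1 : Ex (T ^ l ^ (m - r)) th l K (th m ^ ((l : ℤ) ^ r * α) - 1) 0 := by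
    intro w hw
    rw [zpow_zero, one_mul]
    exact K3_fix T (hcfix K w hw) _
  -- the root
  have e2 : Ex (T ^ l ^ (m - r)) th l K y α := by
    intro w hw
    have h1 : w ^ l ^ (m + K) = z := by
      rw [← hy, ← hw, ← pow_mul, ← pow_add, add_comm]
    have h2 := hexz w h1
    have h3 : T (th (m + K) ^ ((l : ℤ) ^ r * α)) = th (m + K) ^ ((l : ℤ) ^ r * α) := by
      rw [map_zpow₀, h.T_fix]
    rw [K3_pow T h3 h2]
    congr 1
    rw [← zpow_natCast, ← zpow_mul]
    have h4 : (l : ℤ) ^ r * α * ((l ^ (m - r) : ℕ) : ℤ) = ((l ^ m : ℕ) : ℤ) * α := by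
      push_cast
      have : (l : ℤ) ^ m = (l : ℤ) ^ r * (l : ℤ) ^ (m - r) := by
        rw [← pow_add]; congr 1; omega
      rw [this]
      ring
    rw [h4, zpow_mul, zpow_natCast, K3_comp h.comp]
  have e3 := hinv (1 - y) h1yU K j hex1
  have e4 := hmul _ hcU y hyU K 0 α e1 e2
  have e5 := hmul _ (h.mul _ hcU y hyU) _ (h.inv _ h1yU) K _ _ e4 e3
  have e6 : (0 : ℤ) + α + -j = α - j := by ring
  rwa [e6] at e5

end Pool.Agent.U36.TS
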